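import Mathlib
import Pool.Agent.H.MP_d359f0_an.A

namespace Pool.Agent.Results.MP_6ca30a_an.NoUniversal

open Filter Topology Set Cardinal
open Pool.Agent.H.MP_d359f0_an

/-- `X` is complete over the filter `F` on `ℕ`. -/
def CompleteOver (X : Type) [AddCommGroup X] [TopologicalSpace X] (F : Filter ℕ) : Prop :=
  ∀ x : ℕ → X, (∀ U ∈ 𝓝 (0 : X), ∃ B ∈ F, ∀ m ∈ B, ∀ n ∈ B, x m - x n ∈ U) →
    ∃ y, ∀ V ∈ 𝓝 y, ∃ A ∈ F, ∀ n ∈ A, x n ∈ V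

def ar (𝕜 : Type) : ℕ ⊕ Option 𝕜 → Type
  | .inl _ => Empty
  | .inr _ => ℕ

noncomputable def d (𝕜 : Type) [RCLike 𝕜] (n : ℕ) : (ℕ → ℕ) → 𝕜 :=
  indicator {t | n ∈ X t} fun _ => 1

noncomputable def ev (𝕜 : Type) [RCLike 𝕜] (U : Ultrafilter ℕ) : WType (ar 𝕜) → (ℕ → ℕ) → 𝕜
  | .mk (.inl n) _ => d 𝕜 n
  | .mk (.inr (some r)) f => r • ev 𝕜 U (f (0 : ℕ)) + ev 𝕜 U (f (1 : ℕ))
  | .mk (.inr none) f => limUnder (U : Filter ℕ) fun n : ℕ => ev 𝕜 U (f n)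

lemma card_W (𝕜 : Type) [RCLike 𝕜] : #(WType (ar 𝕜)) ≤ 𝔠 := by
  have h𝕜 : #𝕜 ≤ 𝔠 := by
    have : Function.Injective fun z : 𝕜 => (RCLike.re z, RCLike.im z) := fun a b h =>
      RCLike.ext (congrArg Prod.fst h) (congrArg Prod.snd h)
    simpa [mk_real] using mk_le_of_injective this
  apply WType.cardinalMk_le_of_le
  have h1 : ∀ a, 𝔠 ^ #(ar 𝕜 a) ≤ 𝔠 := by
    rintro (n | r)
    · show 𝔠 ^ #Empty ≤ 𝔠
      simpa using one_le_aleph0.trans aleph0_le_continuum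
    · show 𝔠 ^ #ℕ ≤ 𝔠
      simp
  refine (sum_le_sum _ (fun _ => 𝔠) h1).trans ?_
  rw [sum_const']
  have h2 : #(ℕ ⊕ Option 𝕜) ≤ 𝔠 := by
    simp only [mk_sum, mk_option, lift_id, mk_nat]
    refine add_le_of_le aleph0_le_continuum aleph0_le_continuum
      (add_le_of_le aleph0_le_continuum h𝕜 (one_le_aleph0.trans aleph0_le_continuum))
  exact mul_le_of_le aleph0_le_continuum h2 le_rfl

lemma lin_mem (𝕜 : Type) [RCLike 𝕜] (U : Ultrafilter ℕ) (r : 𝕜) {a b : (ℕ → ℕ) → 𝕜}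
    (ha : a ∈ range (ev 𝕜 U)) (hb : b ∈ range (ev 𝕜 U)) : r • a + b ∈ range (ev 𝕜 U) := by
  obtain ⟨a, rfl⟩ := ha
  obtain ⟨b, rfl⟩ := hb
  exact ⟨.mk (.inr (some r)) fun n : ℕ => if n = 0 then a else b, by simp [ev]⟩

lemma d_mem (𝕜 : Type) [RCLike 𝕜] (U : Ultrafilter ℕ) (n : ℕ) : d 𝕜 n ∈ range (ev 𝕜 U) :=
  ⟨.mk (.inl n) Empty.elim, by simp [ev]⟩

lemma zero_mem (𝕜 : Type) [RCLike 𝕜] (U : Ultrafilter ℕ) : 0 ∈ range (ev 𝕜 U) := by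
  simpa using lin_mem 𝕜 U (-1) (d_mem 𝕜 U 0) (d_mem 𝕜 U 0)

def S (𝕜 : Type) [RCLike 𝕜] (U : Ultrafilter ℕ) : Submodule 𝕜 ((ℕ → ℕ) → 𝕜) where
  carrier := range (ev 𝕜 U)
  zero_mem' := zero_mem 𝕜 U
  add_mem' ha hb := by simpa using lin_mem 𝕜 U 1 ha hb
  smul_mem' r _ ha := by simpa using lin_mem 𝕜 U r ha (zero_mem 𝕜 U)

lemma complete (𝕜 : Type) [RCLike 𝕜] (U : Ultrafilter ℕ) : CompleteOver (S 𝕜 U) U := by
  intro x hx
  have hc : Cauchy (map (fun n => (x n : (ℕ → ℕ) → 𝕜)) U) := by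
    rw [IsUniformAddGroup.cauchy_map_iff_tendsto]
    refine ⟨inferInstance, fun W hW => ?_⟩
    obtain ⟨B, hB, h⟩ := hx (Subtype.val ⁻¹' W) (continuous_subtype_val.continuousAt hW)
    exact mem_map.2 (mem_prod_self_iff.2 ⟨B, hB, fun p hp => h _ hp.1 _ hp.2⟩)
  have ht := tendsto_nhds_limUnder (cauchy_map_iff_exists_tendsto.1 hc)
  have hm : ∀ n, ∃ w, ev 𝕜 U w = x n := fun n => (x n).2
  choose w hw using hm
  have hy : limUnder (U : Filter ℕ) (fun n => (x n : (ℕ → ℕ) → 𝕜)) ∈ S 𝕜 U :=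
    ⟨.mk (.inr none) w, by simp [ev, hw]⟩
  have : Tendsto x U (𝓝 ⟨_, hy⟩) := tendsto_subtype_rng.2 ht
  exact ⟨_, fun V hV => ⟨_, this hV, fun n hn => hn⟩⟩

lemma exists_out (𝕜 : Type) [RCLike 𝕜] (U : Ultrafilter ℕ) :
    ∃ s : Set (ℕ → ℕ), (indicator s fun _ => (1 : 𝕜)) ∉ S 𝕜 U := by
  by_contra h
  push Not at h
  choose w hw using h
  have hi : Function.Injective w := fun s t e => by
    have := (hw s).symm.trans ((congrArg (ev 𝕜 U) e).trans (hw t))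
    ext u
    have := congrFun this u
    by_cases h1 : u ∈ s <;> by_cases h2 : u ∈ t <;> simp_all
  have := (mk_le_of_injective hi).trans (card_W 𝕜)
  simp only [mk_set, mk_pi, mk_nat, prod_const, lift_id, aleph0_power_aleph0] at this
  exact absurd this (cantor _).not_ge

lemma exists_ultra (s : Set (ℕ → ℕ)) : ∃ V : Ultrafilter ℕ, (V : Filter ℕ) ≤ cofinite ∧
    ∀ t, ∀ᶠ n in (V : Filter ℕ), (n ∈ X t ↔ t ∈ s) := by
  classical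
  have : (cofinite ⊓ ⨅ t, 𝓟 {n | n ∈ X t ↔ t ∈ s}).NeBot := by
    rw [inf_neBot_iff]
    intro A hA B hB
    obtain ⟨I, hI⟩ := (mem_iInf_finite B).1 hB
    rw [iInf_principal_finset, mem_principal] at hI
    have hinf := indep (I.filter (· ∈ s)) (I.filter (· ∉ s)) (by simp +contextual)
    obtain ⟨n, hn, hn'⟩ := hinf.exists_notMem_finite (mem_cofinite.1 hA)
    refine ⟨n, not_not.1 hn', hI (mem_iInter₂.2 fun t ht => ?_)⟩
    by_cases hs : t ∈ s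
    · exact iff_of_true (hn.1 t (by simp [ht, hs])) hs
    · exact iff_of_false (hn.2 t (by simp [ht, hs])) hs
  refine ⟨Ultrafilter.of (cofinite ⊓ ⨅ t, 𝓟 {n | n ∈ X t ↔ t ∈ s}),
    (Ultrafilter.of_le _).trans inf_le_left, fun t => ?_⟩
  exact le_principal_iff.1 ((Ultrafilter.of_le _).trans (inf_le_right.trans (iInf_le _ t)))

lemma not_complete (𝕜 : Type) [RCLike 𝕜] (M : Submodule 𝕜 ((ℕ → ℕ) → 𝕜)) (V : Ultrafilter ℕ)
    (x : ℕ → M) (z : (ℕ → ℕ) → 𝕜) (ht : Tendsto (fun n => (x n : (ℕ → ℕ) → 𝕜)) V (𝓝 z))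
    (hc : CompleteOver M V) : z ∈ M := by
  obtain ⟨y, hy⟩ := hc x fun W hW => by
    obtain ⟨W', hW', hsub⟩ := (mem_nhds_subtype _ _ _).1 hW
    have h2 : Tendsto (fun p : ℕ × ℕ => (x p.1 : (ℕ → ℕ) → 𝕜) - x p.2)
        ((V : Filter ℕ) ×ˢ (V : Filter ℕ)) (𝓝 (z - z)) :=
      (ht.comp tendsto_fst).sub (ht.comp tendsto_snd)
    rw [sub_self] at h2
    obtain ⟨B, hB, h3⟩ := mem_prod_self_iff.1 (mem_map.1 (h2 hW'))
    exact ⟨B, hB, fun m hm n hn => hsub (h3 (mk_mem_prod hm hn))⟩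
  have h4 : Tendsto x V (𝓝 y) := fun W hW => by
    obtain ⟨A, hA, h⟩ := hy W hW
    exact mem_map.2 (mem_of_superset hA h)
  rw [tendsto_nhds_unique ht (tendsto_subtype_rng.1 h4)]
  exact y.2

theorem result (𝕜 : Type) [RCLike 𝕜] (U : Ultrafilter ℕ) (_hU : (U : Filter ℕ) ≤ cofinite) :
    ∃ (E : Type) (_ : AddCommGroup E) (_ : Module 𝕜 E) (_ : TopologicalSpace E),
      IsTopologicalAddGroup E ∧ ContinuousSMul 𝕜 E ∧ T2Space E ∧ CompleteOver E U ∧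
      ∃ V : Ultrafilter ℕ, (V : Filter ℕ) ≤ cofinite ∧ ¬ CompleteOver E V := by
  obtain ⟨s, hs⟩ := exists_out 𝕜 U
  obtain ⟨V, hV, h⟩ := exists_ultra s
  have ht : Tendsto (d 𝕜) V (𝓝 (indicator s fun _ => (1 : 𝕜))) := by
    refine tendsto_pi_nhds.2 fun t => tendsto_const_nhds.congr' ?_
    filter_upwards [h t] with n hn
    by_cases h1 : t ∈ s
    · simp [d, h1, hn.2 h1]
    · simp [d, h1, mt hn.1 h1]
  have i1 : IsTopologicalAddGroup (S 𝕜 U) := inferInstance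
  have i2 : ContinuousSMul 𝕜 (S 𝕜 U) := inferInstance
  have i3 : T2Space (S 𝕜 U) := inferInstance
  exact ⟨S 𝕜 U, _, _, _, i1, i2, i3, complete 𝕜 U, V, hV,
    fun hc => hs (not_complete 𝕜 _ V (fun n => ⟨d 𝕜 n, d_mem 𝕜 U n⟩) _ ht hc)⟩

end Pool.Agent.Results.MP_6ca30a_an.NoUniversal
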